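import Pool.Agent.ACK.StmtsD

/-!
# Squad ACK, row TWN: isomorphic blow-ups of graphs with six vertices
-/

set_option autoImplicit false

namespace Pool.Agent.ACK.H85

open Pool.Agent.ACK.D

/-- two points with the same neighbours elsewhere -/
def Tw {X : Type} (R : X → X → Prop) (x y : X) : Prop :=
  ∀ z, z ≠ x → z ≠ y → (R x z ↔ R y z)

theorem tw_iff {X : Type} (R : X → X → Prop) (κ : X → Fin 6) (Q : Fin 6 → Fin 6 → Bool)
    (hQ : ∀ i j, (∀ k, Q i k = Q j k) → i = j)
    (hR : ∀ x y, x ≠ y → (R x y ↔ Q (κ x) (κ y) = true))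
    (h2 : ∀ i, ∃ x y, x ≠ y ∧ κ x = i ∧ κ y = i) (x y : X) :
    Tw R x y ↔ κ x = κ y := by
  constructor
  · intro h
    by_contra hne
    apply hne
    apply hQ
    intro k
    obtain ⟨z, hz, hzx, hzy⟩ : ∃ z, κ z = k ∧ z ≠ x ∧ z ≠ y := by
      obtain ⟨u, v, huv, hu, hv⟩ := h2 k
      by_cases h1 : u = x
      · refine ⟨v, hv, ?_, ?_⟩
        · intro h3
          exact huv (h1.trans h3.symm)
        · intro h3
          apply hne
          rw [← h1, ← h3, hu, hv]
      · by_cases h4 : u = y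
        · refine ⟨v, hv, ?_, ?_⟩
          · intro h3
            apply hne
            rw [← h4, ← h3, hu, hv]
          · intro h3
            exact huv (h4.trans h3.symm)
        · exact ⟨u, hu, h1, h4⟩
    have h5 := h z hzx hzy
    rw [hR x z hzx.symm, hR y z hzy.symm, hz] at h5
    exact Bool.eq_iff_iff.mpr h5
  · intro h z hzx hzy
    rw [hR x z hzx.symm, hR y z hzy.symm, h]

theorem twn : TwnStmt := by
  intro X Y R S e κ κ' Q Q' hRS hQ hQ' hR hS h2 h2'
  have hkey : ∀ x y, κ x = κ y ↔ κ' (e x) = κ' (e y) := by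
    intro x y
    rw [← tw_iff R κ Q hQ hR h2 x y, ← tw_iff S κ' Q' hQ' hS h2' (e x) (e y)]
    constructor
    · intro h z hzx hzy
      obtain ⟨z', rfl⟩ := e.surjective z
      have h1 : z' ≠ x := fun h => hzx (by rw [h])
      have h2 : z' ≠ y := fun h => hzy (by rw [h])
      rw [← hRS, ← hRS]
      exact h z' h1 h2
    · intro h z hzx hzy
      rw [hRS, hRS]
      exact h (e z) (fun h1 => hzx (e.injective h1)) (fun h1 => hzy (e.injective h1))
  choose xa xb hab ha hb using h2
  have hinj : Function.Injective (fun i => κ' (e (xa i))) := by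
    intro i j hij
    have h1 := (hkey (xa i) (xa j)).mpr hij
    rw [ha, ha] at h1
    exact h1
  have hbij : Function.Bijective (fun i => κ' (e (xa i))) :=
    Finite.injective_iff_bijective.mp hinj
  have hπ : ∀ x, κ' (e x) = κ' (e (xa (κ x))) := by
    intro x
    apply (hkey x (xa (κ x))).mp
    rw [ha]
  refine ⟨Equiv.ofBijective _ hbij, ?_, ?_⟩
  · intro i j
    obtain ⟨x, y, hxy, hx, hy⟩ : ∃ x y, x ≠ y ∧ κ x = i ∧ κ y = j := by
      by_cases hij : xa i = xb j
      · refine ⟨xa i, xa j, ?_, ha i, ha j⟩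
        intro h
        exact hab j (h.symm.trans hij)
      · exact ⟨xa i, xb j, hij, ha i, hb j⟩
    have h1 : S (e x) (e y) ↔ Q' (κ' (e x)) (κ' (e y)) = true :=
      hS (e x) (e y) (fun h => hxy (e.injective h))
    have h3 : R x y ↔ Q (κ x) (κ y) = true := hR x y hxy
    rw [← hRS x y, h3, hπ x, hπ y, hx, hy] at h1
    show Q' (κ' (e (xa i))) (κ' (e (xa j))) = Q i j
    exact (Bool.eq_iff_iff.mpr h1).symm
  · intro x
    show κ' (e x) = κ' (e (xa (κ x)))
    exact hπ x

end Pool.Agent.ACK.H85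

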